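import Pool.Agent.L0h21.CK.Stm

set_option autoImplicit false

/-! # Module `pert`: generic perturbation of a plane curve -/

namespace Pool.Agent.L0h17.CK

open MvPolynomial Pool.Agent.L0h21.CK

/-- The values `m` such that `F + m x_v ^ K` has a singular zero with `x_v ≠ 0`. -/
def Bad {V : Type} (F : MvPolynomial V ℂ) (v : V) (K : ℕ) : Set ℂ :=
  {m | ∃ x : V → ℂ, x v ≠ 0 ∧ eval x (F + C m * X v ^ K) = 0 ∧
    ∀ i, eval x (pderiv i (F + C m * X v ^ K)) = 0}

theorem eval_pderiv_add {V : Type} [DecidableEq V] (F : MvPolynomial V ℂ) (v i : V) (K : ℕ)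
    (m : ℂ) (x : V → ℂ) : eval x (pderiv i (F + C m * X v ^ K)) =
      eval x (pderiv i F) + m * (K * x v ^ (K - 1)) * (if v = i then 1 else 0) := by
  rw [map_add, map_add, pderiv_C_mul, pderiv_pow, pderiv_X]
  simp only [map_mul, eval_C, map_pow, eval_X, map_natCast]
  by_cases h : v = i
  · subst h
    simp
  · simp [h]

theorem bad_finite (hs : S_sard) {V : Type} [Fintype V] (F : MvPolynomial V ℂ) (v : V) (K : ℕ)
    (hK : 1 ≤ K) : (Bad F v K).Finite := by
  classical
  let H : MvPolynomial (V ⊕ Fin 2) ℂ := rename Sum.inl F * X (Sum.inr 0) ^ K +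
    X (Sum.inr 1) * (X (Sum.inl v) * X (Sum.inr 0) - 1)
  have h1 := hs H
  refine (h1.image fun c => -c).subset ?_
  rintro m ⟨x, hx, hm, hd⟩
  have hm' : eval x F = -m * x v ^ K := by
    rw [map_add, map_mul, eval_C, map_pow, eval_X] at hm
    linear_combination hm
  have hd' : ∀ i, eval x (pderiv i F) = -(m * (K * x v ^ (K - 1)) * (if v = i then 1 else 0)) := by
    intro i
    have h2 := hd i
    rw [eval_pderiv_add] at h2
    linear_combination h2
  let z : ℂ := (x v)⁻¹
  have hz : x v * z = 1 := mul_inv_cancel₀ hx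
  obtain ⟨k, rfl⟩ : ∃ k, K = k + 1 := ⟨K - 1, by omega⟩
  let y : V ⊕ Fin 2 → ℂ := Sum.elim x ![z, m * (k + 1 : ℕ)]
  have hyl : ∀ i, y (Sum.inl i) = x i := fun i => rfl
  have hy0 : y (Sum.inr 0) = z := rfl
  have hy1 : y (Sum.inr 1) = m * (k + 1 : ℕ) := rfl
  have hyF : ∀ G : MvPolynomial V ℂ, eval y (rename Sum.inl G) = eval x G := by
    intro G
    rw [eval_rename]
    rfl
  have hzp : x v ^ k * z ^ k = 1 := by rw [← mul_pow, hz, one_pow]
  refine ⟨-m, ⟨y, ?_, ?_⟩, neg_neg m⟩
  · show eval y (rename Sum.inl F * X (Sum.inr 0) ^ (k + 1) +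
      X (Sum.inr 1) * (X (Sum.inl v) * X (Sum.inr 0) - 1)) = -m
    simp only [map_add, map_mul, map_sub, map_pow, eval_X, map_one, hyF, hyl, hy0, hy1, hm']
    rw [hz, pow_succ, pow_succ]
    linear_combination (-m * x v * z) * hzp - m * hz
  · intro w
    show eval y (pderiv w (rename Sum.inl F * X (Sum.inr 0) ^ (k + 1) +
      X (Sum.inr 1) * (X (Sum.inl v) * X (Sum.inr 0) - 1))) = 0
    rw [map_add, pderiv_mul, pderiv_mul, pderiv_pow, map_sub, pderiv_mul, pderiv_one]
    rcases w with i | j
    · rw [pderiv_rename Sum.inl_injective]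
      have e1 : pderiv (Sum.inl i) (X (Sum.inr 0) : MvPolynomial (V ⊕ Fin 2) ℂ) = 0 :=
        pderiv_X_of_ne (by simp)
      have e2 : pderiv (Sum.inl i) (X (Sum.inr 1) : MvPolynomial (V ⊕ Fin 2) ℂ) = 0 :=
        pderiv_X_of_ne (by simp)
      have e3 : eval y (pderiv (Sum.inl i) (X (Sum.inl v) : MvPolynomial (V ⊕ Fin 2) ℂ)) =
          if v = i then 1 else 0 := by
        rw [pderiv_X]
        by_cases h : v = i
        · subst h
          simp
        · have h' : (Sum.inl v : V ⊕ Fin 2) ≠ Sum.inl i := fun h3 => h (Sum.inl_injective h3)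
          rw [Pi.single_eq_of_ne h', if_neg h, map_zero]
      rw [e1, e2]
      simp only [map_add, map_mul, map_sub, map_pow, eval_X, map_one, map_zero, hyF, hyl, hy0, hy1,
        e3, hd', mul_zero, zero_mul, add_zero, zero_add, sub_zero, Nat.add_sub_cancel]
      by_cases h : v = i
      · simp only [h, if_true]
        rw [← h, pow_succ]
        linear_combination (-m * ((k + 1 : ℕ) : ℂ) * z) * hzp
      · simp [h]
    · have e0 : pderiv (Sum.inr j) (rename Sum.inl F : MvPolynomial (V ⊕ Fin 2) ℂ) = 0 := by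
        refine pderiv_eq_zero_of_notMem_vars fun h => ?_
        obtain ⟨i, -, hi⟩ := mem_vars_rename _ _ h
        exact absurd hi (by simp)
      have e1 : pderiv (Sum.inr j) (X (Sum.inl v) : MvPolynomial (V ⊕ Fin 2) ℂ) = 0 :=
        pderiv_X_of_ne (by simp)
      rw [e0, e1]
      fin_cases j
      · have e2 : pderiv (Sum.inr (0 : Fin 2)) (X (Sum.inr 1) : MvPolynomial (V ⊕ Fin 2) ℂ) = 0 :=
          pderiv_X_of_ne (by simp)
        simp only [Fin.zero_eta, Fin.isValue, e2, pderiv_X_self, map_add, map_mul, map_sub, map_pow,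
          eval_X, map_one, map_zero, hyF, hyl, hy0, hy1, mul_zero, zero_mul, add_zero, zero_add,
          sub_zero, Nat.add_sub_cancel, map_natCast, hm', mul_one]
        rw [pow_succ]
        linear_combination (-m * ((k + 1 : ℕ) : ℂ) * x v) * hzp
      · have e2 : pderiv (Sum.inr (1 : Fin 2)) (X (Sum.inr 0) : MvPolynomial (V ⊕ Fin 2) ℂ) = 0 :=
          pderiv_X_of_ne (by simp)
        simp only [Fin.mk_one, Fin.isValue, e2, pderiv_X_self, map_add, map_mul, map_sub, map_pow,
          eval_X, map_one, map_zero, hyF, hyl, hy0, hy1, mul_zero, zero_mul, add_zero, zero_add,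
          sub_zero, one_mul, hz, sub_self]

/-- Outside of a finite set of complex numbers there are `p`-adic numbers, also nonzero ones. -/
theorem exists_notMem (p : ℕ) [Fact p.Prime] (σ : ℚ_[p] →+* ℂ) {B : Set ℂ} (hB : B.Finite) :
    ∃ l : ℚ_[p], l ≠ 0 ∧ σ l ∉ B := by
  have h1 : ((B ∪ {0}).preimage σ).Finite := (hB.union (Set.finite_singleton 0)).preimage
    σ.injective.injOn
  have h2 : ((B ∪ {0}).preimage σ) ≠ Set.univ := fun h => Set.infinite_univ (h ▸ h1)
  obtain ⟨l, hl⟩ := (Set.ne_univ_iff_exists_notMem _).1 h2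
  refine ⟨l, ?_, fun h => hl (Or.inl h)⟩
  rintro rfl
  exact hl (Or.inr (by simp))

theorem s_pert (hs : S_sard) : S_pert := by
  classical
  intro p _ σ g k hg
  let K : ℕ := k + g.totalDegree + 2
  obtain ⟨l, hl0, hl⟩ := exists_notMem p σ (bad_finite hs (map σ g) 0 K (by omega))
  obtain ⟨m, hm0, hm⟩ := exists_notMem p σ
    (bad_finite hs (map σ g + C (σ l) * X 0 ^ K) 1 K (by omega))
  have hcX : ∀ (a : ℚ_[p]) (i : Fin 2) (d : Fin 2 →₀ ℕ), coeff d (C a * X i ^ K) =
      if Finsupp.single i K = d then a else 0 := by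
    intro a i d
    rw [coeff_C_mul, coeff_X_pow]
    split_ifs <;> simp
  refine ⟨g + C l * X 0 ^ K + C m * X 1 ^ K, ?_, ?_, ?_, ?_⟩
  · intro d hd
    have e : g + C l * X 0 ^ K + C m * X 1 ^ K - g = C l * X 0 ^ K + C m * X 1 ^ K := by ring
    rw [e, coeff_add, hcX, hcX]
    have h0 : ∀ i : Fin 2, Finsupp.single i K ≠ d := by
      rintro i rfl
      rw [Finsupp.degree_single] at hd
      omega
    rw [if_neg (h0 0), if_neg (h0 1), add_zero]
  · intro c hc
    have h1 := congrArg (coeff (Finsupp.single (1 : Fin 2) K)) hc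
    rw [coeff_add, coeff_add, hcX, hcX, if_pos rfl, if_neg, coeff_C, if_neg] at h1
    · have h2 : coeff (Finsupp.single (1 : Fin 2) K) g = 0 := by
        refine coeff_eq_zero_of_totalDegree_lt ?_
        rw [Finsupp.support_single_ne_zero _ (by omega), Finset.sum_singleton,
          Finsupp.single_eq_same]
        omega
      rw [h2, zero_add, zero_add] at h1
      exact hm0 h1
    · intro h
      have h2 := DFunLike.congr_fun h (1 : Fin 2)
      rw [Finsupp.single_eq_same] at h2
      simp only [Finsupp.coe_zero, Pi.zero_apply] at h2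
      omega
    · intro h
      have h2 := DFunLike.congr_fun h (1 : Fin 2)
      rw [Finsupp.single_eq_same, Finsupp.single_eq_of_ne (by simp)] at h2
      omega
  · rw [coeff_add, coeff_add, hcX, hcX, hg, if_neg, if_neg, add_zero, add_zero]
    · intro h
      have h2 := DFunLike.congr_fun h (1 : Fin 2)
      rw [Finsupp.single_eq_same] at h2
      simp only [Finsupp.coe_zero, Pi.zero_apply] at h2
      omega
    · intro h
      have h2 := DFunLike.congr_fun h (0 : Fin 2)
      rw [Finsupp.single_eq_same] at h2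
      simp only [Finsupp.coe_zero, Pi.zero_apply] at h2
      omega
  · intro x hx hxd
    have e : map σ (g + C l * X 0 ^ K + C m * X 1 ^ K) =
        map σ g + C (σ l) * X 0 ^ K + C (σ m) * X 1 ^ K := by
      simp only [map_add, map_mul, map_pow, map_C, map_X]
    rw [e] at hx hxd
    have h1 : x 1 = 0 := by
      by_contra h
      exact hm ⟨x, h, hx, hxd⟩
    have h0 : x 0 = 0 := by
      by_contra h
      refine hl ⟨x, h, ?_, fun i => ?_⟩
      · rw [map_add, map_mul, map_pow, eval_X, h1, zero_pow (by omega), mul_zero, add_zero] at hx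
        exact hx
      · have h2 := hxd i
        rw [eval_pderiv_add, h1, zero_pow (by omega), mul_zero, mul_zero, zero_mul, add_zero] at h2
        exact h2
    funext i
    fin_cases i
    · exact h0
    · exact h1

end Pool.Agent.L0h17.CK
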